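import Mathlib

/-! Basic facts on odd perfect numbers: components, divisor sums of components, closure lemma. -/

namespace Pool.OPN

open Finset

/-- the component `p ^ v_p(N)` -/
def comp (N p : ℕ) : ℕ := p ^ N.factorization p

/-- the divisor sum of the component -/
def sg (N p : ℕ) : ℕ := ∑ i ∈ range (N.factorization p + 1), p ^ i

lemma prod_comp {N : ℕ} (hN : N ≠ 0) : ∏ p ∈ N.primeFactors, comp N p = N := by
  exact Nat.prod_factorization_pow_eq_self hN

lemma prod_sg {N : ℕ} (hN : N ≠ 0) (hp : N.Perfect) : ∏ p ∈ N.primeFactors, sg N p = 2 * N := by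
  have h1 : ∑ i ∈ N.divisors, i = 2 * N :=
    (Nat.perfect_iff_sum_divisors_eq_two_mul (Nat.pos_of_ne_zero hN)).1 hp
  have h2 : ArithmeticFunction.sigma 1 N = 2 * N := by
    rw [ArithmeticFunction.sigma_one_apply, h1]
  rw [ArithmeticFunction.IsMultiplicative.multiplicative_factorization _
    ArithmeticFunction.isMultiplicative_sigma hN] at h2
  rw [← h2]
  unfold Finsupp.prod
  rw [Nat.support_factorization]
  apply Finset.prod_congr rfl
  intro p hp
  show sg N p = ArithmeticFunction.sigma 1 (p ^ (N.factorization p))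
  rw [ArithmeticFunction.sigma_one_apply_prime_pow (Nat.prime_of_mem_primeFactors hp)]
  rfl

lemma comp_pos {N p : ℕ} (hp : p ∈ N.primeFactors) : 0 < comp N p :=
  pow_pos (Nat.prime_of_mem_primeFactors hp).pos _

lemma fac_pos {N p : ℕ} (hp : p ∈ N.primeFactors) : 0 < N.factorization p :=
  (Nat.prime_of_mem_primeFactors hp).factorization_pos_of_dvd
    (Nat.pos_of_mem_primeFactors hp |> fun _ => (Nat.mem_primeFactors.1 hp).2.2)
    (Nat.dvd_of_mem_primeFactors hp)

lemma comp_lt_sg {N p : ℕ} (hp : p ∈ N.primeFactors) : comp N p < sg N p := by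
  unfold sg comp
  rw [Finset.sum_range_succ]
  have h := fac_pos hp
  have : 0 < ∑ i ∈ range (N.factorization p), p ^ i := by
    apply Finset.sum_pos
    · intro i _
      exact pow_pos (Nat.prime_of_mem_primeFactors hp).pos _
    · exact ⟨0, by simpa using h⟩
  omega

lemma sg_pos {N p : ℕ} (hp : p ∈ N.primeFactors) : 0 < sg N p :=
  lt_of_le_of_lt (Nat.zero_le _) (comp_lt_sg hp)

lemma sg_of_one {N p : ℕ} (h : N.factorization p = 1) : sg N p = p + 1 := by
  unfold sg; rw [h]; simp [Finset.sum_range_succ]; ring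

lemma sg_of_two {N p : ℕ} (h : N.factorization p = 2) : sg N p = p ^ 2 + p + 1 := by
  unfold sg; rw [h]; simp [Finset.sum_range_succ]; ring

lemma comp_of_two {N p : ℕ} (h : N.factorization p = 2) : comp N p = p ^ 2 := by
  unfold comp; rw [h]

lemma not_dvd_sg_self {N p : ℕ} (hp : p.Prime) : ¬ p ∣ sg N p := by
  unfold sg
  rw [Finset.sum_range_succ']
  intro h
  have h1 : p ∣ ∑ k ∈ range (N.factorization p), p ^ (k + 1) :=
    Finset.dvd_sum fun i _ => dvd_pow_self p (Nat.succ_ne_zero i)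
  have h2 := (Nat.dvd_add_right h1).1 h
  simp only [pow_zero] at h2
  exact hp.one_lt.ne' (Nat.dvd_one.1 h2)

lemma odd_of_mem {N p : ℕ} (hodd : Odd N) (hp : p ∈ N.primeFactors) : Odd p :=
  Odd.of_dvd_nat hodd (Nat.dvd_of_mem_primeFactors hp)

lemma sg_parity {N p : ℕ} (hodd : Odd N) (hp : p ∈ N.primeFactors) (h : Odd (sg N p)) :
    Even (N.factorization p) := by
  have hpo := odd_of_mem hodd hp
  by_contra hne
  rw [Nat.not_even_iff_odd] at hne
  have : Even (sg N p) := by
    unfold sg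
    rw [Finset.even_sum_iff_even_card_odd]
    rw [Finset.filter_true_of_mem (fun i _ => hpo.pow)]
    rw [Finset.card_range]
    exact hne.add_one
  exact (Nat.not_even_iff_odd.2 h) this

/-- data of an odd perfect number together with its special prime -/
structure Data (N π : ℕ) : Prop where
  odd : Odd N
  prod : ∏ p ∈ N.primeFactors, sg N p = 2 * N
  mem : π ∈ N.primeFactors
  even : ∀ p ∈ N.primeFactors, p ≠ π → Even (N.factorization p)

lemma Data.ne_zero {N π : ℕ} (D : Data N π) : N ≠ 0 := (Nat.mem_primeFactors.1 D.mem).2.2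

lemma exists_data {N : ℕ} (hodd : Odd N) (hp : N.Perfect) : ∃ π, Data N π := by
  have hN : N ≠ 0 := by rintro rfl; simp at hodd
  have h := prod_sg hN hp
  have h2 : 2 ∣ ∏ p ∈ N.primeFactors, sg N p := ⟨N, h⟩
  obtain ⟨π, hπ, hd⟩ := (Prime.dvd_finsetProd_iff Nat.prime_two.prime _).1 h2
  refine ⟨π, hodd, h, hπ, ?_⟩
  intro p hpm hne
  apply sg_parity hodd hpm
  by_contra hcon
  rw [Nat.not_odd_iff_even] at hcon
  obtain ⟨a, ha⟩ := hd
  obtain ⟨b, hb⟩ := hcon
  have h3 : sg N π * sg N p ∣ ∏ p ∈ N.primeFactors, sg N p := by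
    rw [← Finset.mul_prod_erase _ _ hπ]
    apply Nat.mul_dvd_mul_left
    exact Finset.dvd_prod_of_mem _ (Finset.mem_erase.2 ⟨hne, hpm⟩)
  rw [h, ha, hb] at h3
  obtain ⟨c, hc⟩ := h3
  have : N = 2 * (a * b * c) := by nlinarith
  rw [this] at hodd
  exact (Nat.not_odd_iff_even.2 (even_two_mul _)) hodd

/-- total supply of the prime `t` -/
lemma sum_supply {N π t : ℕ} (D : Data N π) (ht : t ∈ N.primeFactors) :
    ∑ p ∈ N.primeFactors, (sg N p).factorization t = N.factorization t := by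
  have h : (∏ p ∈ N.primeFactors, sg N p).factorization t = (2 * N).factorization t := by
    rw [D.prod]
  rw [Nat.factorization_prod (fun p hp => (sg_pos hp).ne'),
    Nat.factorization_mul two_ne_zero D.ne_zero] at h
  have h2 : (Nat.factorization 2) t = 0 := by
    apply Nat.factorization_eq_zero_of_not_dvd
    intro hd
    have h3 := (Nat.prime_dvd_prime_iff_eq (Nat.prime_of_mem_primeFactors ht) Nat.prime_two).1 hd
    have := odd_of_mem D.odd ht
    rw [h3] at this
    exact absurd this (by decide)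
  rw [Finsupp.add_apply, h2, zero_add] at h
  rw [← h, Finsupp.finsetSum_apply]

lemma mem_of_dvd {N π p t : ℕ} (D : Data N π) (hp : p ∈ N.primeFactors) (ht : t.Prime)
    (h2 : t ≠ 2) (h : t ∣ sg N p) : t ∈ N.primeFactors := by
  have h1 : t ∣ 2 * N := by
    rw [← D.prod]
    exact h.trans (Finset.dvd_prod_of_mem _ hp)
  have h3 : t ∣ N := by
    rcases (Nat.Prime.dvd_mul ht).1 h1 with h4 | h4
    · exact absurd ((Nat.prime_dvd_prime_iff_eq ht Nat.prime_two).1 h4) h2
    · exact h4
  exact Nat.mem_primeFactors.2 ⟨ht, h3, D.ne_zero⟩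

/-- closure lemma: a proper nonempty set of components needs an external supplier -/
lemma closure {N π : ℕ} (D : Data N π) (B : Finset ℕ) (hB : B ⊆ N.primeFactors)
    (hne : B.Nonempty) (hne' : B ≠ N.primeFactors) :
    ∃ t ∈ B, ∃ c ∈ N.primeFactors \ B, t ∣ sg N c := by
  by_contra hcon
  push Not at hcon
  have hcop : Nat.Coprime (∏ t ∈ B, comp N t) (∏ c ∈ N.primeFactors \ B, sg N c) := by
    apply Nat.Coprime.prod_left
    intro t ht
    apply Nat.Coprime.prod_right
    intro c hc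
    unfold comp
    apply Nat.Coprime.pow_left
    exact (Nat.Prime.coprime_iff_not_dvd (Nat.prime_of_mem_primeFactors (hB ht))).2 (hcon t ht c hc)
  have hp1 : (∏ c ∈ N.primeFactors \ B, sg N c) * ∏ t ∈ B, sg N t = 2 * N := by
    rw [Finset.prod_sdiff hB, D.prod]
  have hp2 : (∏ c ∈ N.primeFactors \ B, comp N c) * ∏ t ∈ B, comp N t = N := by
    rw [Finset.prod_sdiff hB, prod_comp D.ne_zero]
  have hdv : (∏ t ∈ B, comp N t) ∣ ∏ t ∈ B, sg N t := by
    have : (∏ t ∈ B, comp N t) ∣ (∏ c ∈ N.primeFactors \ B, sg N c) * ∏ t ∈ B, sg N t := by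
      rw [hp1]
      exact Dvd.dvd.mul_left ⟨∏ c ∈ N.primeFactors \ B, comp N c, by rw [mul_comm, hp2]⟩ 2
    exact Nat.Coprime.dvd_of_dvd_mul_left hcop this
  have hlt1 : ∏ t ∈ B, comp N t < ∏ t ∈ B, sg N t :=
    Finset.prod_lt_prod_of_nonempty (fun t ht => comp_pos (hB ht))
      (fun t ht => comp_lt_sg (hB ht)) hne
  have hne2 : (N.primeFactors \ B).Nonempty := by
    rw [Finset.sdiff_nonempty]
    intro h
    exact hne' (Finset.Subset.antisymm hB h)
  have hlt2 : ∏ c ∈ N.primeFactors \ B, comp N c < ∏ c ∈ N.primeFactors \ B, sg N c :=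
    Finset.prod_lt_prod_of_nonempty (fun t ht => comp_pos (Finset.mem_sdiff.1 ht).1)
      (fun t ht => comp_lt_sg (Finset.mem_sdiff.1 ht).1) hne2
  obtain ⟨k, hk⟩ := hdv
  set X := ∏ t ∈ B, comp N t
  set X' := ∏ t ∈ B, sg N t
  set M := ∏ c ∈ N.primeFactors \ B, comp N c
  set M' := ∏ c ∈ N.primeFactors \ B, sg N c
  have hX : 0 < X := Finset.prod_pos fun t ht => comp_pos (hB ht)
  have hk2 : 2 ≤ k := by
    by_contra hk2
    have : k = 0 ∨ k = 1 := by omega
    rcases this with rfl | rfl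
    · simp at hk; omega
    · simp at hk; omega
  have : 2 * (M * X) < M' * X' := by
    calc 2 * (M * X) = M * (X * 2) := by ring
      _ ≤ M * (X * k) := Nat.mul_le_mul_left _ (Nat.mul_le_mul_left _ hk2)
      _ = M * X' := by rw [hk]
      _ < M' * X' := Nat.mul_lt_mul_of_pos_right hlt2 (by omega)
  rw [hp1, hp2] at this
  exact lt_irrefl _ this

/-- two distinct roots of `x ^ 2 + x + 1` modulo a prime cannot both be small -/
lemma root_argument {t x y : ℕ} (ht : t.Prime) (hxy : x ≠ y) (hx : t ∣ x ^ 2 + x + 1)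
    (hy : t ∣ y ^ 2 + y + 1) (hx2 : 2 * x + 1 < t) : t ≤ 2 * y + 1 := by
  by_contra hcon
  push Not at hcon
  have h1 : (t : ℤ) ∣ ((x : ℤ) - y) * (x + y + 1) := by
    have hx' : (t : ℤ) ∣ (x : ℤ) ^ 2 + x + 1 := by exact_mod_cast hx
    have hy' : (t : ℤ) ∣ (y : ℤ) ^ 2 + y + 1 := by exact_mod_cast hy
    have := dvd_sub hx' hy'
    have he : ((x : ℤ) - y) * (x + y + 1) = (x : ℤ) ^ 2 + x + 1 - ((y : ℤ) ^ 2 + y + 1) := by ring
    rw [he]; exact this
  have htp : Prime (t : ℤ) := Nat.prime_iff_prime_int.1 ht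
  rcases htp.dvd_or_dvd h1 with h2 | h2
  · have h3 : (x : ℤ) - y = 0 := by
      apply Int.eq_zero_of_abs_lt_dvd h2
      rw [abs_lt]; constructor <;> omega
    apply hxy; omega
  · have h3 : (x : ℤ) + y + 1 = 0 := by
      apply Int.eq_zero_of_abs_lt_dvd h2
      rw [abs_lt]; constructor <;> omega
    omega

end Pool.OPN
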