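import Pool.Agent.Work.OPN.Steuerwald

/-! The chain argument. -/

namespace Pool.OPN

open Finset

/-- relative size of the divisor sum of a component -/
noncomputable def rho (N p : ℕ) : ℝ := (sg N p : ℝ) / comp N p

/-- weight of a component: itself if the exponent is two, its cube otherwise -/
noncomputable def wt (N p : ℕ) : ℝ :=
  if N.factorization p = 2 then (comp N p : ℝ) else (comp N p : ℝ) ^ 3

lemma one_lt_rho {N p : ℕ} (hp : p ∈ N.primeFactors) : 1 < rho N p := by
  unfold rho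
  rw [one_lt_div (by exact_mod_cast comp_pos hp)]
  exact_mod_cast comp_lt_sg hp

lemma one_le_comp {N p : ℕ} (hp : p ∈ N.primeFactors) : (1 : ℝ) ≤ comp N p := by
  exact_mod_cast comp_pos hp

lemma comp_mul_rho {N p : ℕ} (hp : p ∈ N.primeFactors) : (comp N p : ℝ) * rho N p = sg N p := by
  unfold rho
  have : (comp N p : ℝ) ≠ 0 := by exact_mod_cast (comp_pos hp).ne'
  field_simp

lemma one_le_wt {N p : ℕ} (hp : p ∈ N.primeFactors) : 1 ≤ wt N p := by
  unfold wt
  have := one_le_comp hp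
  split_ifs
  · exact this
  · exact one_le_pow₀ this

lemma comp_le_wt {N p : ℕ} (hp : p ∈ N.primeFactors) : (comp N p : ℝ) ≤ wt N p := by
  unfold wt
  have := one_le_comp hp
  split_ifs
  · exact le_rfl
  · exact le_self_pow₀ this (by norm_num)

lemma wt_of_two {N p : ℕ} (h : N.factorization p = 2) : wt N p = (p : ℝ) ^ 2 := by
  unfold wt; rw [if_pos h, comp_of_two h]; push_cast; ring

lemma wt_of_ne {N p : ℕ} (h : N.factorization p ≠ 2) : wt N p = (comp N p : ℝ) ^ 3 := by
  unfold wt; rw [if_neg h]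

lemma prod_rho {N π : ℕ} (D : Data N π) : ∏ p ∈ N.primeFactors, rho N p = 2 := by
  unfold rho
  rw [Finset.prod_div_distrib]
  have h1 : (∏ p ∈ N.primeFactors, (sg N p : ℝ)) = 2 * N := by
    have := D.prod
    exact_mod_cast congrArg (fun m : ℕ => (m : ℝ)) this
  have h2 : (∏ p ∈ N.primeFactors, (comp N p : ℝ)) = N := by
    have := prod_comp D.ne_zero
    exact_mod_cast congrArg (fun m : ℕ => (m : ℝ)) this
  rw [h1, h2]
  have : (N : ℝ) ≠ 0 := by exact_mod_cast D.ne_zero
  field_simp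

lemma prod_rho_le {N π : ℕ} (D : Data N π) {T : Finset ℕ} (hT : T ⊆ N.primeFactors) :
    ∏ p ∈ T, rho N p ≤ 2 := by
  rw [← prod_rho D]
  exact Finset.prod_le_prod_of_subset_of_one_le hT
    (fun i hi => zero_le_one.trans (one_lt_rho (hT hi)).le) (fun i hi _ => (one_lt_rho hi).le)

lemma one_le_prod_rho {N : ℕ} {T : Finset ℕ} (hT : T ⊆ N.primeFactors) :
    1 ≤ ∏ p ∈ T, rho N p :=
  Finset.one_le_prod fun _ hi => (one_lt_rho (hT hi)).le

lemma one_le_prod_wt {N : ℕ} {T : Finset ℕ} (hT : T ⊆ N.primeFactors) :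
    1 ≤ ∏ p ∈ T, wt N p :=
  Finset.one_le_prod fun _ hi => one_le_wt (hT hi)

/-- total weight of the components other than the special one -/
noncomputable def G (N π : ℕ) : ℝ := ∏ p ∈ N.primeFactors.erase π, wt N p

lemma prod_wt_le {N π : ℕ} {T : Finset ℕ} (hT : T ⊆ N.primeFactors.erase π) :
    ∏ p ∈ T, wt N p ≤ G N π := by
  unfold G
  exact Finset.prod_le_prod_of_subset_of_one_le hT
    (fun i hi => zero_le_one.trans (one_le_wt (Finset.mem_of_mem_erase (hT hi))))
    (fun i hi _ => one_le_wt (Finset.mem_of_mem_erase hi))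

/-- the goal of the chain argument -/
def Good (N π : ℕ) : Prop := (π : ℝ) ^ 3 < 256 * G N π

/-- a state of the chain argument -/
structure St (N π q : ℕ) (R : Finset ℕ) (T0 : ℝ) (B : Finset ℕ) (l : ℕ) : Prop where
  sub : B ⊆ N.primeFactors
  hpi : π ∈ B
  hq : q ∈ B
  qpi : q ≠ π
  hRs : R ⊆ B
  two : ∀ t ∈ B, t ≠ π → N.factorization t = 2
  hl : l ∈ B
  lpi : l ≠ π
  lq : l ≠ q
  lR : l ∉ R
  nopi : ∀ c ∈ N.primeFactors, c ∉ B → ¬ π ∣ sg N c
  noq : ∀ c ∈ N.primeFactors, c ∉ B → ¬ q ∣ sg N c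
  J2 : ∀ t ∈ B, t ≠ π → t ≠ q → t ∉ R →
    T0 ≤ (∏ p ∈ B.erase π, wt N p) * (t : ℝ) ^ 2 * (∏ p ∈ B.erase π, rho N p) ^ 2
  J3 : ∀ t ∈ B, t ≠ π → t ≠ q → t ∉ R → t ≠ l → ∃ x ∈ B, 2 * x + 1 < t ∧ t ∣ x ^ 2 + x + 1

lemma external_bounds {N π c : ℕ} (D : Data N π) {B : Finset ℕ} (hB : B ⊆ N.primeFactors)
    (hc : c ∈ N.primeFactors) (hcB : c ∉ B) (hπ : π ∈ B) :
    (∏ p ∈ B.erase π, wt N p) * wt N c ≤ G N π ∧ (∏ p ∈ B.erase π, rho N p) * rho N c ≤ 2 := by
  have hc' : c ∉ B.erase π := fun h => hcB (Finset.mem_of_mem_erase h)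
  have hcπ : c ≠ π := fun h => hcB (h ▸ hπ)
  constructor
  · rw [mul_comm, ← Finset.prod_insert hc']
    apply prod_wt_le
    intro x hx
    rw [Finset.mem_insert] at hx
    rcases hx with rfl | hx
    · exact Finset.mem_erase.2 ⟨hcπ, hc⟩
    · exact Finset.mem_erase.2 ⟨(Finset.mem_erase.1 hx).1, hB (Finset.mem_of_mem_erase hx)⟩
  · rw [mul_comm, ← Finset.prod_insert hc']
    apply prod_rho_le D
    intro x hx
    rw [Finset.mem_insert] at hx
    rcases hx with rfl | hx
    · exact hc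
    · exact hB (Finset.mem_of_mem_erase hx)

lemma aux_new {T0 P Q t w ρ : ℝ} (h : T0 ≤ P * t ^ 2 * Q ^ 2) (hP : 1 ≤ P)
    (ht : 0 ≤ t) (hwt : t ≤ w * ρ) : T0 ≤ w * P * w * (ρ * Q) ^ 2 := by
  have h1 : t ^ 2 ≤ (w * ρ) ^ 2 := by gcongr
  have h2 : 0 ≤ Q ^ 2 := sq_nonneg _
  calc T0 ≤ P * t ^ 2 * Q ^ 2 := h
    _ ≤ P * (w * ρ) ^ 2 * Q ^ 2 := by gcongr
    _ = _ := by ring

lemma aux_old {T0 P Q x w ρ : ℝ} (h : T0 ≤ P * x ^ 2 * Q ^ 2) (hP : 1 ≤ P) (hQ : 1 ≤ Q)
    (hw : 1 ≤ w) (hρ : 1 ≤ ρ) : T0 ≤ w * P * x ^ 2 * (ρ * Q) ^ 2 := by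
  have h1 : P * x ^ 2 ≤ w * P * x ^ 2 := by
    have : 0 ≤ P * x ^ 2 := by positivity
    nlinarith
  have h2 : Q ^ 2 ≤ (ρ * Q) ^ 2 := by
    have : Q ≤ ρ * Q := by nlinarith
    gcongr
  have h3 : 0 ≤ w * P * x ^ 2 := by positivity
  calc T0 ≤ P * x ^ 2 * Q ^ 2 := h
    _ ≤ (w * P * x ^ 2) * Q ^ 2 := by gcongr
    _ ≤ _ := by gcongr

lemma aux_big {T0 P Q t X ρ : ℝ} (h : T0 ≤ P * t ^ 2 * Q ^ 2) (hP : 1 ≤ P) (hQ : 1 ≤ Q)
    (hρ : 1 ≤ ρ) (hX : 1 ≤ X) (h1 : t ^ 2 ≤ 4 * (X * ρ)) (hRho : Q * ρ ≤ 2) :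
    T0 ≤ 16 * (P * X) := by
  have h3 : Q ^ 2 * ρ ≤ 4 := by
    have h4 : Q ≤ 2 := by nlinarith
    have : Q * ρ * Q ≤ 2 * 2 := by
      apply mul_le_mul hRho h4 (by linarith) (by norm_num)
    nlinarith
  calc T0 ≤ P * t ^ 2 * Q ^ 2 := h
    _ ≤ P * (4 * (X * ρ)) * Q ^ 2 := by gcongr
    _ = 4 * P * X * (Q ^ 2 * ρ) := by ring
    _ ≤ 4 * P * X * 4 := by gcongr
    _ = _ := by ring

lemma aux_cube {T0 P Q t X ρ : ℝ} (h : T0 ≤ P * t ^ 2 * Q ^ 2) (hP : 1 ≤ P) (hQ : 1 ≤ Q)
    (hρ : 1 ≤ ρ) (hX : 1 ≤ X) (ht : 0 ≤ t) (h1 : t ≤ X * ρ) (hRho : Q * ρ ≤ 2) :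
    T0 ≤ 16 * (P * X ^ 3) := by
  have h3 : (Q * ρ) ^ 2 ≤ 4 := by
    have : 0 ≤ Q * ρ := by positivity
    nlinarith
  have h4 : X ^ 2 ≤ X ^ 3 := pow_le_pow_right₀ hX (by norm_num)
  calc T0 ≤ P * t ^ 2 * Q ^ 2 := h
    _ ≤ P * (X * ρ) ^ 2 * Q ^ 2 := by gcongr
    _ = P * X ^ 2 * (Q * ρ) ^ 2 := by ring
    _ ≤ P * X ^ 3 * 4 := by gcongr
    _ ≤ _ := by
      have : 0 ≤ P * X ^ 3 := by positivity
      linarith

lemma chain {N π q : ℕ} (D : Data N π) (hπ1 : N.factorization π = 1)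
    (R B0 : Finset ℕ) (T0 : ℝ) (hT : (π : ℝ) ^ 3 < 16 * T0)
    (hR : ∀ t ∈ R, ∀ c ∈ N.primeFactors, c ∉ B0 → t ∣ sg N c → Good N π) :
    ∀ n : ℕ, ∀ B l, (N.primeFactors \ B).card = n → B0 ⊆ B → St N π q R T0 B l → Good N π := by
  intro n
  induction n with
  | zero =>
    intro B l hn _ S
    exfalso
    rw [Finset.card_eq_zero, Finset.sdiff_eq_empty_iff_subset] at hn
    have hBe : B = N.primeFactors := Finset.Subset.antisymm S.sub hn
    apply steuerwald D hπ1 (fun p hp h => S.two p (hBe ▸ hp) h)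
    rw [← hBe]
    have : ({π, q, l} : Finset ℕ) ⊆ B := by
      intro x hx
      simp only [Finset.mem_insert, Finset.mem_singleton] at hx
      rcases hx with rfl | rfl | rfl
      · exact S.hpi
      · exact S.hq
      · exact S.hl
    have h3 : ({π, q, l} : Finset ℕ).card = 3 := by
      rw [Finset.card_eq_three]
      exact ⟨π, q, l, S.qpi.symm, S.lpi.symm, S.lq.symm, rfl⟩
    calc 2 < 3 := by norm_num
      _ = _ := h3.symm
      _ ≤ _ := Finset.card_le_card this
  | succ n ih =>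
    intro B l hn hB0 S
    have hBne : B ≠ N.primeFactors := by
      rintro rfl
      simp at hn
    obtain ⟨t, ht, c, hc, hd⟩ := closure D B S.sub ⟨π, S.hpi⟩ hBne
    rw [Finset.mem_sdiff] at hc
    obtain ⟨hcP, hcB⟩ := hc
    have htπ : t ≠ π := by rintro rfl; exact S.nopi c hcP hcB hd
    have htq : t ≠ q := by rintro rfl; exact S.noq c hcP hcB hd
    by_cases htR : t ∈ R
    · exact hR t htR c hcP (fun h => hcB (hB0 h)) hd
    have hJ2 := S.J2 t ht htπ htq htR
    obtain ⟨hG, hRho⟩ := external_bounds D S.sub hcP hcB S.hpi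
    have hBe : B.erase π ⊆ N.primeFactors := (Finset.erase_subset _ _).trans S.sub
    set P := ∏ p ∈ B.erase π, wt N p with hP
    set Q := ∏ p ∈ B.erase π, rho N p with hQ
    have hP1 : 1 ≤ P := one_le_prod_wt hBe
    have hQ1 : 1 ≤ Q := one_le_prod_rho hBe
    have hρ := one_lt_rho hcP
    have hX := one_le_comp hcP
    have hXρ := comp_mul_rho hcP
    have htsg : (t : ℝ) ≤ sg N c := by exact_mod_cast Nat.le_of_dvd (sg_pos hcP) hd
    have htprime := Nat.prime_of_mem_primeFactors (S.sub ht)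
    have ht0 : (0 : ℝ) ≤ t := Nat.cast_nonneg t
    by_cases hc2 : N.factorization c = 2
    · by_cases hbig : t ≤ 2 * c + 1
      · -- success
        have h1 : (t : ℝ) ^ 2 ≤ 4 * sg N c := by
          rw [sg_of_two hc2]
          have : t ^ 2 ≤ 4 * (c ^ 2 + c + 1) := by nlinarith
          exact_mod_cast this
        rw [← hXρ] at h1
        have h2 : T0 ≤ 16 * (P * wt N c) := by
          rw [wt_of_two hc2]
          have hXc : (comp N c : ℝ) = (c : ℝ) ^ 2 := by rw [comp_of_two hc2]; push_cast; ring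
          rw [← hXc]
          exact aux_big hJ2 hP1 hQ1 hρ.le hX h1 hRho
        unfold Good
        linarith
      · push Not at hbig
        have htl : t = l := by
          by_contra htl
          obtain ⟨x, hxB, hx2, hxd⟩ := S.J3 t ht htπ htq htR htl
          rw [sg_of_two hc2] at hd
          have := root_argument htprime (fun h : x = c => hcB (h ▸ hxB)) hxd hd hx2
          omega
        subst htl
        -- extend the chain
        have hcπ : c ≠ π := fun h => hcB (h ▸ S.hpi)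
        have hins : (insert c B).erase π = insert c (B.erase π) := by
          rw [Finset.erase_insert_of_ne hcπ]
        have hc' : c ∉ B.erase π := fun h => hcB (Finset.mem_of_mem_erase h)
        apply ih (insert c B) c
        · rw [Finset.sdiff_insert, Finset.card_erase_of_mem (Finset.mem_sdiff.2 ⟨hcP, hcB⟩)]
          omega
        · exact hB0.trans (Finset.subset_insert _ _)
        · refine ⟨?_, Finset.mem_insert_of_mem S.hpi, Finset.mem_insert_of_mem S.hq, S.qpi,
            S.hRs.trans (Finset.subset_insert _ _), ?_, Finset.mem_insert_self _ _, hcπ,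
            fun h => hcB (h ▸ S.hq), fun h => hcB (S.hRs h), ?_, ?_, ?_, ?_⟩
          · intro x hx
            rcases Finset.mem_insert.1 hx with rfl | hx
            · exact hcP
            · exact S.sub hx
          · intro x hx hxπ
            rcases Finset.mem_insert.1 hx with rfl | hx
            · exact hc2
            · exact S.two x hx hxπ
          · intro x hx hxB
            exact S.nopi x hx (fun h => hxB (Finset.mem_insert_of_mem h))
          · intro x hx hxB
            exact S.noq x hx (fun h => hxB (Finset.mem_insert_of_mem h))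
          · intro x hx hxπ hxq hxR
            rw [hins, Finset.prod_insert hc', Finset.prod_insert hc', ← hP, ← hQ]
            have hw := one_le_wt hcP
            rcases Finset.mem_insert.1 hx with rfl | hx
            · -- the new element
              have e1 : (t : ℝ) ≤ wt N x * rho N x := by
                have : wt N x * rho N x = sg N x := by
                  rw [wt_of_two hc2, ← hXρ, comp_of_two hc2]; push_cast; ring
                rw [this]
                exact htsg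
              have e2 : (x : ℝ) ^ 2 = wt N x := (wt_of_two hc2).symm
              rw [e2]
              exact aux_new hJ2 hP1 ht0 e1
            · have e1 := S.J2 x hx hxπ hxq hxR
              rw [← hP, ← hQ] at e1
              exact aux_old e1 hP1 hQ1 hw hρ.le
          · intro x hx hxπ hxq hxR hxc
            rcases Finset.mem_insert.1 hx with rfl | hx
            · exact absurd rfl hxc
            · by_cases hxt : x = t
              · subst hxt
                refine ⟨c, Finset.mem_insert_self _ _, hbig, ?_⟩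
                rw [← sg_of_two hc2]; exact hd
              · obtain ⟨y, hy, hy2, hy3⟩ := S.J3 x hx hxπ hxq hxR hxt
                exact ⟨y, Finset.mem_insert_of_mem hy, hy2, hy3⟩
    · -- exponent not two
      have h2 : T0 ≤ 16 * (P * wt N c) := by
        rw [wt_of_ne hc2]
        rw [← hXρ] at htsg
        exact aux_cube hJ2 hP1 hQ1 hρ.le hX ht0 htsg hRho
      unfold Good
      linarith

end Pool.OPN
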