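import Pool.Agent.Work.OPN.Chain

/-! The radical of an odd perfect number. -/

namespace Pool.OPN

open Finset

lemma sum_two {S : Finset ℕ} {f : ℕ → ℕ} (h : ∑ p ∈ S, f p = 2) :
    (∃ r ∈ S, f r = 2 ∧ ∀ c ∈ S, c ≠ r → f c = 0) ∨
    (∃ r ∈ S, ∃ s ∈ S, r ≠ s ∧ f r = 1 ∧ f s = 1 ∧ ∀ c ∈ S, c ≠ r → c ≠ s → f c = 0) := by
  have h0 : ∑ p ∈ S, f p ≠ 0 := by omega
  obtain ⟨r, hr, hfr⟩ := Finset.exists_ne_zero_of_sum_ne_zero h0
  have h1 := Finset.add_sum_erase S f hr
  rw [h] at h1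
  by_cases h2 : f r = 1
  · have h3 : ∑ p ∈ S.erase r, f p ≠ 0 := by omega
    obtain ⟨s, hs, hfs⟩ := Finset.exists_ne_zero_of_sum_ne_zero h3
    have h4 := Finset.add_sum_erase (S.erase r) f hs
    have h5 : f s = 1 := by omega
    have h6 : ∑ p ∈ (S.erase r).erase s, f p = 0 := by omega
    rw [Finset.sum_eq_zero_iff] at h6
    refine Or.inr ⟨r, hr, s, Finset.mem_of_mem_erase hs, (Finset.mem_erase.1 hs).1.symm, h2, h5, ?_⟩
    intro c hc hcr hcs
    exact h6 c (Finset.mem_erase.2 ⟨hcs, Finset.mem_erase.2 ⟨hcr, hc⟩⟩)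
  · have h3 : f r = 2 := by omega
    have h6 : ∑ p ∈ S.erase r, f p = 0 := by omega
    rw [Finset.sum_eq_zero_iff] at h6
    refine Or.inl ⟨r, hr, h3, ?_⟩
    intro c hc hcr
    exact h6 c (Finset.mem_erase.2 ⟨hcr, hc⟩)

lemma arithA {P q X ρ σ G : ℝ} (hP0 : 0 ≤ P) (hP : P ≤ q ^ 2 * ρ) (hq : q ^ 2 ≤ X * σ)
    (hρ : 1 ≤ ρ) (hσ : 1 ≤ σ) (hX : 1 ≤ X) (hρσ : ρ * σ ≤ 2) (hG : q ^ 2 * X ^ 3 ≤ G)
    (hG1 : 1 ≤ G) : P ^ 3 < 256 * G := by
  have e1 : P ^ 3 ≤ (q ^ 2 * ρ) ^ 3 := by gcongr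
  have e2 : (q ^ 2) ^ 2 ≤ (X * σ) ^ 2 := by gcongr
  have e3 : X ^ 2 ≤ X ^ 3 := pow_le_pow_right₀ hX (by norm_num)
  have hρ2 : ρ ≤ 2 := by nlinarith
  have e4 : (ρ * σ) ^ 2 ≤ 4 := by
    have : 0 ≤ ρ * σ := by positivity
    nlinarith
  calc P ^ 3 ≤ (q ^ 2 * ρ) ^ 3 := e1
    _ = q ^ 2 * (q ^ 2) ^ 2 * ρ ^ 3 := by ring
    _ ≤ q ^ 2 * (X * σ) ^ 2 * ρ ^ 3 := by gcongr
    _ = q ^ 2 * X ^ 2 * (ρ * σ) ^ 2 * ρ := by ring
    _ ≤ q ^ 2 * X ^ 3 * 4 * 2 := by gcongr
    _ ≤ 8 * G := by linarith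
    _ < 256 * G := by linarith

lemma arithT {P q Y ρ σ : ℝ} (hP0 : 0 ≤ P) (hP : P ≤ q ^ 2 * ρ) (hq : q ^ 2 ≤ Y * σ)
    (hρ : 1 ≤ ρ) (hρ2 : ρ ≤ 2) (hq1 : 1 ≤ q) :
    P ^ 3 < 16 * (q ^ 2 * Y * Y * (ρ * σ) ^ 2) := by
  have e1 : P ^ 3 ≤ (q ^ 2 * ρ) ^ 3 := by gcongr
  have e2 : (q ^ 2) ^ 2 ≤ (Y * σ) ^ 2 := by gcongr
  have e3 : 0 < q ^ 2 * (Y * σ) ^ 2 * ρ ^ 2 := by
    have : 0 < (q ^ 2) ^ 2 := by positivity
    have : 0 < (Y * σ) ^ 2 := by linarith
    positivity
  calc P ^ 3 ≤ (q ^ 2 * ρ) ^ 3 := e1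
    _ = q ^ 2 * (q ^ 2) ^ 2 * ρ ^ 2 * ρ := by ring
    _ ≤ q ^ 2 * (Y * σ) ^ 2 * ρ ^ 2 * 2 := by gcongr
    _ < 16 * (q ^ 2 * (Y * σ) ^ 2 * ρ ^ 2) := by linarith
    _ = _ := by ring

lemma arithB {P q X Y ρ σ τ G : ℝ} (hP0 : 0 ≤ P) (hq0 : 0 ≤ q) (hP : P ≤ q ^ 2 * ρ)
    (hqX : q ≤ X * σ) (hqY : q ≤ Y * τ)
    (hρ : 1 ≤ ρ) (hσ : 1 ≤ σ) (hτ : 1 ≤ τ) (hX : 1 ≤ X) (hY : 1 ≤ Y) (h2 : ρ * σ * τ ≤ 2)
    (hG : q ^ 2 * X ^ 3 * Y ≤ G) (hG1 : 1 ≤ G) : P ^ 3 < 256 * G := by
  have e1 : P ^ 3 ≤ (q ^ 2 * ρ) ^ 3 := by gcongr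
  have e2 : q ^ 3 ≤ (X * σ) ^ 3 := by gcongr
  have e3 : τ ≤ τ ^ 3 := le_self_pow₀ hτ (by norm_num)
  have e4 : (ρ * σ * τ) ^ 3 ≤ 2 ^ 3 := by gcongr
  calc P ^ 3 ≤ (q ^ 2 * ρ) ^ 3 := e1
    _ = q ^ 2 * q ^ 3 * q * ρ ^ 3 := by ring
    _ ≤ q ^ 2 * (X * σ) ^ 3 * (Y * τ) * ρ ^ 3 := by gcongr
    _ = q ^ 2 * X ^ 3 * Y * (σ ^ 3 * ρ ^ 3 * τ) := by ring
    _ ≤ q ^ 2 * X ^ 3 * Y * (σ ^ 3 * ρ ^ 3 * τ ^ 3) := by gcongr
    _ = q ^ 2 * X ^ 3 * Y * (ρ * σ * τ) ^ 3 := by ring
    _ ≤ q ^ 2 * X ^ 3 * Y * 2 ^ 3 := by gcongr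
    _ ≤ 8 * G := by linarith
    _ < 256 * G := by linarith

lemma arithT2 {P q Y Z ρ σ τ : ℝ} (hP0 : 0 ≤ P) (hP : P ≤ q ^ 2 * ρ) (hq : q ^ 2 ≤ 4 * (Y * σ))
    (hq2 : q ≤ Z * τ) (hρ : 1 ≤ ρ) (hρ2 : ρ ≤ 2) (hσ : 1 ≤ σ) (hq1 : 1 ≤ q)
    (hY : 1 ≤ Y) :
    P ^ 3 < 16 * (q ^ 2 * Y * Z * Z * (ρ * σ * τ) ^ 2) := by
  have e1 : P ^ 3 ≤ (q ^ 2 * ρ) ^ 3 := by gcongr
  have e2 : q ^ 2 ≤ (Z * τ) ^ 2 := by gcongr
  have e4 : σ ≤ σ ^ 2 := le_self_pow₀ hσ (by norm_num)
  have e3 : 0 < q ^ 2 * (Y * σ ^ 2) * (Z * τ) ^ 2 * ρ ^ 2 := by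
    have h1 : 0 < (q ^ 2) := by positivity
    have : 0 < (Z * τ) ^ 2 := by linarith
    positivity
  calc P ^ 3 ≤ (q ^ 2 * ρ) ^ 3 := e1
    _ = q ^ 2 * (q ^ 2) * (q ^ 2) * ρ ^ 2 * ρ := by ring
    _ ≤ q ^ 2 * (4 * (Y * σ)) * (Z * τ) ^ 2 * ρ ^ 2 * 2 := by gcongr
    _ ≤ q ^ 2 * (4 * (Y * σ ^ 2)) * (Z * τ) ^ 2 * ρ ^ 2 * 2 := by gcongr
    _ = 8 * (q ^ 2 * (Y * σ ^ 2) * (Z * τ) ^ 2 * ρ ^ 2) := by ring
    _ < 16 * (q ^ 2 * (Y * σ ^ 2) * (Z * τ) ^ 2 * ρ ^ 2) := by linarith
    _ = _ := by ring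

lemma arithR {P q x Z X ρ σ τ υ G : ℝ} (hP0 : 0 ≤ P) (hq0 : 0 ≤ q) (hP : P ≤ q ^ 2 * ρ)
    (hq : q ^ 2 ≤ 4 * (x ^ 2 * σ)) (hq2 : q ≤ Z * τ) (hqx : q ≤ 3 * x) (hx : x ≤ X * υ)
    (hρ : 1 ≤ ρ) (hσ : 1 ≤ σ) (hτ : 1 ≤ τ) (_ : 1 ≤ υ) (hZ : 1 ≤ Z) (hX : 1 ≤ X)
    (h2 : ρ * σ * τ * υ ≤ 2) (hρ2 : ρ ≤ 2)
    (hG : q ^ 2 * x ^ 2 * Z * X ≤ G) (hG1 : 1 ≤ G) : P ^ 3 < 256 * G := by
  have e1 : P ^ 3 ≤ (q ^ 2 * ρ) ^ 3 := by gcongr
  have e2 : q ≤ 3 * (X * υ) := by linarith
  have hρ4 : ρ ^ 2 ≤ 4 := by nlinarith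
  have e5 : 0 ≤ q ^ 2 * x ^ 2 * Z * X := by positivity
  calc P ^ 3 ≤ (q ^ 2 * ρ) ^ 3 := e1
    _ = q ^ 2 * q ^ 2 * q * q * ρ ^ 3 := by ring
    _ ≤ q ^ 2 * (4 * (x ^ 2 * σ)) * (Z * τ) * (3 * (X * υ)) * ρ ^ 3 := by gcongr
    _ = 12 * (q ^ 2 * x ^ 2 * Z * X) * (ρ * σ * τ * υ) * ρ ^ 2 := by ring
    _ ≤ 12 * (q ^ 2 * x ^ 2 * Z * X) * 2 * 4 := by gcongr
    _ ≤ 96 * G := by linarith
    _ < 256 * G := by linarith

lemma one_le_G {N π : ℕ} : 1 ≤ G N π := one_le_prod_wt (Finset.erase_subset _ _)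

lemma factorization_pos_iff {t n : ℕ} (ht : t.Prime) (hn : n ≠ 0) :
    0 < n.factorization t ↔ t ∣ n := by
  constructor
  · intro h
    exact Nat.dvd_of_factorization_pos h.ne'
  · intro h
    exact ht.factorization_pos_of_dvd hn h

lemma main_good {N π : ℕ} (D : Data N π) (hπ1 : N.factorization π = 1) : Good N π := by
  have hπp := Nat.prime_of_mem_primeFactors D.mem
  have hπodd := odd_of_mem D.odd D.mem
  have hπd : π ∣ ∏ p ∈ N.primeFactors, sg N p := by
    rw [D.prod]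
    exact Dvd.dvd.mul_left (Nat.dvd_of_mem_primeFactors D.mem) 2
  obtain ⟨q, hq, hπq⟩ := (Prime.dvd_finsetProd_iff hπp.prime _).1 hπd
  have hqπ : q ≠ π := by
    rintro rfl
    exact not_dvd_sg_self hπp hπq
  have hqp := Nat.prime_of_mem_primeFactors hq
  have hqodd := odd_of_mem D.odd hq
  have hqe : q ∈ N.primeFactors.erase π := Finset.mem_erase.2 ⟨hqπ, hq⟩
  have hG1 : 1 ≤ G N π := one_le_G
  have hπle : (π : ℝ) ≤ sg N q := by exact_mod_cast Nat.le_of_dvd (sg_pos hq) hπq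
  have hρq := one_lt_rho hq
  have hρq2 : rho N q ≤ 2 := by
    have := prod_rho_le D (T := {q}) (by simpa using hq)
    simpa using this
  have hXq := one_le_comp hq
  have hXρq := comp_mul_rho hq
  have hπ0 : (0 : ℝ) ≤ π := Nat.cast_nonneg π
  have hq1 : (1 : ℝ) ≤ q := by exact_mod_cast hqp.one_lt.le
  by_cases hq2 : N.factorization q = 2
  swap
  · -- exponent at least four
    have hw : wt N q ≤ G N π := by
      have := prod_wt_le (N := N) (π := π) (T := {q}) (by simpa using hqe)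
      simpa using this
    rw [wt_of_ne hq2] at hw
    rw [← hXρq] at hπle
    unfold Good
    have e1 : (π : ℝ) ^ 3 ≤ (comp N q * rho N q) ^ 3 := by gcongr
    have e2 : (comp N q * rho N q) ^ 3 ≤ (comp N q * 2) ^ 3 := by gcongr
    have e3 : ((comp N q : ℝ) * 2) ^ 3 = 8 * (comp N q : ℝ) ^ 3 := by ring
    linarith
  -- exponent two
  have hsq := sg_of_two hq2
  have hcq : (comp N q : ℝ) = (q : ℝ) ^ 2 := by rw [comp_of_two hq2]; push_cast; ring
  have hwq : wt N q = (q : ℝ) ^ 2 := wt_of_two hq2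
  have hπle' : (π : ℝ) ≤ (q : ℝ) ^ 2 * rho N q := by rw [← hcq, hXρq]; exact hπle
  -- `q ∤ π + 1`
  have hqπ1 : ¬ q ∣ sg N π := by
    rw [sg_of_one hπ1]
    intro hd
    rw [hsq] at hπq
    obtain ⟨c, hc⟩ := hπq
    have h1 : q ∣ c + 1 := by
      have h2 : q ∣ (π + 1) * c := Dvd.dvd.mul_right hd c
      have h3 : (π + 1) * c = q * (q + 1) + (c + 1) := by nlinarith
      rw [h3] at h2
      exact (Nat.dvd_add_right (Dvd.intro _ rfl)).1 h2
    have h4 : q ≤ c + 1 := Nat.le_of_dvd (Nat.succ_pos _) h1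
    have h5 : 2 * q ≤ π + 1 := by
      obtain ⟨k, hk⟩ := hd
      have hk2 : 2 ≤ k := by
        by_contra hk2
        have : k = 0 ∨ k = 1 := by omega
        rcases this with rfl | rfl
        · omega
        · obtain ⟨a, ha⟩ := hπodd
          obtain ⟨b, hb⟩ := hqodd
          omega
      rw [hk]
      nlinarith
    have hq3 : q ≤ 4 := by
      by_contra hq4
      push Not at hq4
      have h6 : (2 * q - 1) * (q - 1) ≤ π * c := Nat.mul_le_mul (by omega) (by omega)
      rw [← hc] at h6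
      obtain ⟨m, rfl⟩ : ∃ m, q = m + 5 := ⟨q - 5, by omega⟩
      have e1 : 2 * (m + 5) - 1 = 2 * m + 9 := by omega
      have e2 : m + 5 - 1 = m + 4 := by omega
      rw [e1, e2] at h6
      nlinarith
    have hq3' : q = 3 := by
      have := hqp.two_le
      obtain ⟨b, hb⟩ := hqodd
      omega
    subst hq3'
    have hπ13 : π ∣ 13 := ⟨c, by omega⟩
    have : π = 13 := (Nat.prime_dvd_prime_iff_eq hπp (by norm_num)).1 hπ13
    subst this
    omega
  have hfπ : (sg N π).factorization q = 0 := Nat.factorization_eq_zero_of_not_dvd hqπ1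
  have hfq : (sg N q).factorization q = 0 :=
    Nat.factorization_eq_zero_of_not_dvd (not_dvd_sg_self hqp)
  have hsum := sum_supply D hq
  rw [hq2] at hsum
  -- no other supplier of `π`
  have hnoπ : ∀ c ∈ N.primeFactors, c ≠ q → ¬ π ∣ sg N c := by
    intro c hc hcq hd
    have hs := sum_supply D D.mem
    rw [hπ1] at hs
    have hsub : ({c, q} : Finset ℕ) ⊆ N.primeFactors := by
      intro x hx
      simp only [Finset.mem_insert, Finset.mem_singleton] at hx
      rcases hx with rfl | rfl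
      · exact hc
      · exact hq
    have h5 : ∑ p ∈ ({c, q} : Finset ℕ), (sg N p).factorization π ≤ 1 := by
      rw [← hs]
      exact Finset.sum_le_sum_of_subset hsub
    rw [Finset.sum_insert (by simp [hcq]), Finset.sum_singleton] at h5
    have e1 := hπp.factorization_pos_of_dvd (sg_pos hc).ne' hd
    have e2 := hπp.factorization_pos_of_dvd (sg_pos hq).ne' hπq
    omega
  rcases sum_two hsum with ⟨r, hr, hfr, hrest⟩ | ⟨r, hr, s, hs, hrs, hfr, hfs, hrest⟩
  · -- a single supplier `r` of `q ^ 2`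
    have hrπ : r ≠ π := by rintro rfl; omega
    have hrq : r ≠ q := by rintro rfl; omega
    have hd : q ^ 2 ∣ sg N r := by
      rw [hqp.pow_dvd_iff_le_factorization (sg_pos hr).ne']; omega
    have hle : (q : ℝ) ^ 2 ≤ comp N r * rho N r := by
      rw [comp_mul_rho hr]
      exact_mod_cast Nat.le_of_dvd (sg_pos hr) hd
    have hρr := one_lt_rho hr
    have hXr := one_le_comp hr
    have hρρ : rho N q * rho N r ≤ 2 := by
      have := prod_rho_le D (T := {q, r}) (by
        intro x hx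
        simp only [Finset.mem_insert, Finset.mem_singleton] at hx
        rcases hx with rfl | rfl
        · exact hq
        · exact hr)
      rwa [Finset.prod_pair hrq.symm] at this
    by_cases hr2 : N.factorization r = 2
    · -- chain
      have hcr : (comp N r : ℝ) = (r : ℝ) ^ 2 := by rw [comp_of_two hr2]; push_cast; ring
      have hwr : wt N r = (r : ℝ) ^ 2 := wt_of_two hr2
      have hBe : ({π, q, r} : Finset ℕ).erase π = {q, r} := by
        rw [Finset.erase_insert]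
        simp [hqπ.symm, hrπ.symm]
      have hsub : ({π, q, r} : Finset ℕ) ⊆ N.primeFactors := by
        intro x hx
        simp only [Finset.mem_insert, Finset.mem_singleton] at hx
        rcases hx with rfl | rfl | rfl
        · exact D.mem
        · exact hq
        · exact hr
      apply chain (q := q) D hπ1 ∅ ∅ ((q : ℝ) ^ 2 * (r : ℝ) ^ 2 * (r : ℝ) ^ 2 * (rho N q * rho N r) ^ 2)
        _ (by simp) _ {π, q, r} r rfl (by simp)
      · refine ⟨hsub, by simp, by simp, hqπ, by simp, ?_, by simp, hrπ, hrq, by simp, ?_, ?_, ?_, ?_⟩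
        · intro t ht htπ
          simp only [Finset.mem_insert, Finset.mem_singleton] at ht
          rcases ht with rfl | rfl | rfl
          · exact absurd rfl htπ
          · exact hq2
          · exact hr2
        · intro c hc hcB
          apply hnoπ c hc
          rintro rfl
          simp at hcB
        · intro c hc hcB hdc
          have : (sg N c).factorization q = 0 := by
            apply hrest c hc
            rintro rfl
            simp at hcB
          have e1 := hqp.factorization_pos_of_dvd (sg_pos hc).ne' hdc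
          omega
        · intro t ht htπ htq _
          simp only [Finset.mem_insert, Finset.mem_singleton] at ht
          rcases ht with rfl | rfl | rfl
          · exact absurd rfl htπ
          · exact absurd rfl htq
          · rw [hBe, Finset.prod_pair hrq.symm, Finset.prod_pair hrq.symm, hwq, hwr]
        · intro t ht htπ htq _ htr
          simp only [Finset.mem_insert, Finset.mem_singleton] at ht
          rcases ht with rfl | rfl | rfl
          · exact absurd rfl htπ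
          · exact absurd rfl htq
          · exact absurd rfl htr
      · rw [hcr] at hle
        exact arithT hπ0 hπle' hle hρq.le hρq2 hq1
    · -- exponent at least four
      have hG : (q : ℝ) ^ 2 * (comp N r : ℝ) ^ 3 ≤ G N π := by
        have := prod_wt_le (N := N) (π := π) (T := {q, r}) (by
          intro x hx
          simp only [Finset.mem_insert, Finset.mem_singleton] at hx
          rcases hx with rfl | rfl
          · exact hqe
          · exact Finset.mem_erase.2 ⟨hrπ, hr⟩)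
        rwa [Finset.prod_pair hrq.symm, hwq, wt_of_ne hr2] at this
      exact arithA hπ0 hπle' hle hρq.le hρr.le hXr hρρ hG hG1
  · -- two suppliers `r`, `s` of `q`
    have hrπ : r ≠ π := by rintro rfl; omega
    have hrq : r ≠ q := by rintro rfl; omega
    have hsπ : s ≠ π := by rintro rfl; omega
    have hsq' : s ≠ q := by rintro rfl; omega
    have hdr : q ∣ sg N r := (factorization_pos_iff hqp (sg_pos hr).ne').1 (by omega)
    have hds : q ∣ sg N s := (factorization_pos_iff hqp (sg_pos hs).ne').1 (by omega)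
    -- symmetric statement
    have hsubG : ∀ {a b : ℕ}, a ∈ N.primeFactors → b ∈ N.primeFactors → a ≠ π → b ≠ π →
        a ≠ q → b ≠ q → a ≠ b → wt N q * (wt N a * wt N b) ≤ G N π ∧
        rho N q * (rho N a * rho N b) ≤ 2 := by
      intro a b ha hb haπ hbπ haq hbq hab
      have e1 : q ∉ ({a, b} : Finset ℕ) := by simp [haq.symm, hbq.symm]
      constructor
      · have := prod_wt_le (N := N) (π := π) (T := {q, a, b}) (by
          intro x hx
          simp only [Finset.mem_insert, Finset.mem_singleton] at hx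
          rcases hx with rfl | rfl | rfl
          · exact hqe
          · exact Finset.mem_erase.2 ⟨haπ, ha⟩
          · exact Finset.mem_erase.2 ⟨hbπ, hb⟩)
        rwa [Finset.prod_insert e1, Finset.prod_pair hab] at this
      · have := prod_rho_le D (T := {q, a, b}) (by
          intro x hx
          simp only [Finset.mem_insert, Finset.mem_singleton] at hx
          rcases hx with rfl | rfl | rfl
          · exact hq
          · exact ha
          · exact hb)
        rwa [Finset.prod_insert e1, Finset.prod_pair hab] at this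
    have hY : ∀ {a b : ℕ}, a ∈ N.primeFactors → b ∈ N.primeFactors → a ≠ π → b ≠ π →
        a ≠ q → b ≠ q → a ≠ b → q ∣ sg N a → q ∣ sg N b → N.factorization a ≠ 2 → Good N π := by
      intro a b ha hb haπ hbπ haq hbq hab hda hdb ha2
      obtain ⟨h1, h2⟩ := hsubG ha hb haπ hbπ haq hbq hab
      have hla : (q : ℝ) ≤ comp N a * rho N a := by
        rw [comp_mul_rho ha]; exact_mod_cast Nat.le_of_dvd (sg_pos ha) hda
      have hlb : (q : ℝ) ≤ comp N b * rho N b := by
        rw [comp_mul_rho hb]; exact_mod_cast Nat.le_of_dvd (sg_pos hb) hdb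
      have hρa := one_lt_rho ha
      have hρb := one_lt_rho hb
      have hXa := one_le_comp ha
      have hXb := one_le_comp hb
      have hcw := comp_le_wt hb
      apply arithB hπ0 (by linarith) hπle' hla hlb hρq.le hρa.le hρb.le hXa hXb
        (by rw [mul_assoc]; exact h2) _ hG1
      rw [hwq, wt_of_ne ha2] at h1
      calc (q : ℝ) ^ 2 * (comp N a : ℝ) ^ 3 * comp N b
          ≤ (q : ℝ) ^ 2 * (comp N a : ℝ) ^ 3 * wt N b := by gcongr
        _ = (q : ℝ) ^ 2 * ((comp N a : ℝ) ^ 3 * wt N b) := by ring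
        _ ≤ _ := h1
    by_cases hr2 : N.factorization r = 2
    swap
    · exact hY hr hs hrπ hsπ hrq hsq' hrs hdr hds hr2
    by_cases hs2 : N.factorization s = 2
    swap
    · exact hY hs hr hsπ hrπ hsq' hrq hrs.symm hds hdr hs2
    -- both exponents two
    have key : ∀ {a b : ℕ}, a ∈ N.primeFactors → b ∈ N.primeFactors → a ≠ π → b ≠ π →
        a ≠ q → b ≠ q → b < a → q ∣ sg N a → q ∣ sg N b → N.factorization a = 2 →
        N.factorization b = 2 →
        (∀ c ∈ N.primeFactors, c ≠ a → c ≠ b → (sg N c).factorization q = 0) → Good N π := by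
      intro a b ha hb haπ hbπ haq hbq hab hda hdb ha2 hb2 hrest
      obtain ⟨h1, h2⟩ := hsubG ha hb haπ hbπ haq hbq hab.ne'
      have hsa := sg_of_two ha2
      have hsb := sg_of_two hb2
      have hqa : q ≤ 2 * a + 1 := by
        by_contra hcon
        push Not at hcon
        rw [hsa] at hda
        rw [hsb] at hdb
        have := root_argument hqp hab.ne' hda hdb hcon
        omega
      have hca : (comp N a : ℝ) = (a : ℝ) ^ 2 := by rw [comp_of_two ha2]; push_cast; ring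
      have hcb : (comp N b : ℝ) = (b : ℝ) ^ 2 := by rw [comp_of_two hb2]; push_cast; ring
      have hwa : wt N a = (a : ℝ) ^ 2 := wt_of_two ha2
      have hwb : wt N b = (b : ℝ) ^ 2 := wt_of_two hb2
      have hρa := one_lt_rho ha
      have hρb := one_lt_rho hb
      have hXa := one_le_comp ha
      have hXb := one_le_comp hb
      have hla : (q : ℝ) ^ 2 ≤ 4 * ((a : ℝ) ^ 2 * rho N a) := by
        rw [← hca, comp_mul_rho ha, hsa]
        have : q ^ 2 ≤ 4 * (a ^ 2 + a + 1) := by nlinarith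
        exact_mod_cast this
      have hlb : (q : ℝ) ≤ (b : ℝ) ^ 2 * rho N b := by
        rw [← hcb, comp_mul_rho hb]
        exact_mod_cast Nat.le_of_dvd (sg_pos hb) hdb
      have ha1 : (1 : ℝ) ≤ a := by
        exact_mod_cast (Nat.prime_of_mem_primeFactors ha).one_lt.le
      have hqa3 : (q : ℝ) ≤ 3 * a := by
        have : (q : ℝ) ≤ 2 * a + 1 := by exact_mod_cast hqa
        linarith
      have hBe : ({π, q, a, b} : Finset ℕ).erase π = {q, a, b} := by
        rw [Finset.erase_insert]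
        simp [hqπ.symm, haπ.symm, hbπ.symm]
      have hqn : q ∉ ({a, b} : Finset ℕ) := by simp [haq.symm, hbq.symm]
      have hsub : ({π, q, a, b} : Finset ℕ) ⊆ N.primeFactors := by
        intro x hx
        simp only [Finset.mem_insert, Finset.mem_singleton] at hx
        rcases hx with rfl | rfl | rfl | rfl
        · exact D.mem
        · exact hq
        · exact ha
        · exact hb
      apply chain (q := q) D hπ1 {a} {π, q, a, b}
        ((q : ℝ) ^ 2 * (a : ℝ) ^ 2 * (b : ℝ) ^ 2 * (b : ℝ) ^ 2 *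
          (rho N q * rho N a * rho N b) ^ 2) _ _ _ {π, q, a, b} b rfl (Finset.Subset.refl _)
      · refine ⟨hsub, by simp, by simp, hqπ, by simp, ?_, by simp, hbπ, hbq,
          by simpa using hab.ne, ?_, ?_, ?_, ?_⟩
        · intro t ht htπ
          simp only [Finset.mem_insert, Finset.mem_singleton] at ht
          rcases ht with rfl | rfl | rfl | rfl
          · exact absurd rfl htπ
          · exact hq2
          · exact ha2
          · exact hb2
        · intro c hc hcB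
          apply hnoπ c hc
          rintro rfl
          simp at hcB
        · intro c hc hcB hdc
          have : (sg N c).factorization q = 0 := by
            apply hrest c hc
            · rintro rfl
              simp at hcB
            · rintro rfl
              simp at hcB
          have e1 := hqp.factorization_pos_of_dvd (sg_pos hc).ne' hdc
          omega
        · intro t ht htπ htq hta
          simp only [Finset.mem_insert, Finset.mem_singleton] at ht hta
          rcases ht with rfl | rfl | rfl | rfl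
          · exact absurd rfl htπ
          · exact absurd rfl htq
          · exact absurd rfl hta
          · rw [hBe, Finset.prod_insert hqn, Finset.prod_pair hab.ne', Finset.prod_insert hqn,
              Finset.prod_pair hab.ne', hwq, hwa, hwb]
            apply le_of_eq
            ring
        · intro t ht htπ htq hta htr
          simp only [Finset.mem_insert, Finset.mem_singleton] at ht hta
          rcases ht with rfl | rfl | rfl | rfl
          · exact absurd rfl htπ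
          · exact absurd rfl htq
          · exact absurd rfl hta
          · exact absurd rfl htr
      · rw [hca] at hXa
        exact arithT2 hπ0 hπle' hla hlb hρq.le hρq2 hρa.le hq1 hXa
      · intro t ht c hc hcB hdc
        rw [Finset.mem_singleton] at ht
        subst ht
        have hsubB : ({π, q, t, b} : Finset ℕ) ⊆ N.primeFactors := hsub
        obtain ⟨g1, g2⟩ := external_bounds D hsubB hc hcB (by simp)
        rw [hBe, Finset.prod_insert hqn, Finset.prod_pair hab.ne', hwq, hwa, hwb] at g1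
        rw [hBe, Finset.prod_insert hqn, Finset.prod_pair hab.ne'] at g2
        have hlc : (t : ℝ) ≤ comp N c * rho N c := by
          rw [comp_mul_rho hc]; exact_mod_cast Nat.le_of_dvd (sg_pos hc) hdc
        have hρc := one_lt_rho hc
        have hXc := one_le_comp hc
        have hcw := comp_le_wt hc
        rw [hcb] at hXb
        apply arithR hπ0 (by linarith) hπle' hla hlb hqa3 hlc hρq.le hρa.le hρb.le hρc.le hXb hXc
          (by linarith [g2, show rho N q * rho N t * rho N b * rho N c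
            = rho N q * (rho N t * rho N b) * rho N c by ring]) hρq2 _ hG1
        calc (q : ℝ) ^ 2 * (t : ℝ) ^ 2 * (b : ℝ) ^ 2 * comp N c
            ≤ (q : ℝ) ^ 2 * (t : ℝ) ^ 2 * (b : ℝ) ^ 2 * wt N c := by gcongr
          _ = (q : ℝ) ^ 2 * ((t : ℝ) ^ 2 * (b : ℝ) ^ 2) * wt N c := by ring
          _ ≤ _ := g1
    rcases lt_or_gt_of_ne hrs with h | h
    · exact key hs hr hsπ hrπ hsq' hrq h hds hdr hs2 hr2 (fun c hc h1 h2 => hrest c hc h2 h1)
    · exact key hr hs hrπ hsπ hrq hsq' h hdr hds hr2 hs2 hrest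

/-- the radical, eighth power form -/
theorem radical_pow {N : ℕ} (hodd : Odd N) (hp : N.Perfect) :
    ((∏ p ∈ N.primeFactors, p : ℕ) : ℝ) ^ 8 < 256 * (N : ℝ) ^ 5 := by
  obtain ⟨π, D⟩ := exists_data hodd hp
  have hN0 : N ≠ 0 := D.ne_zero
  have hN1 : (1 : ℝ) ≤ N := by exact_mod_cast Nat.pos_of_ne_zero hN0
  by_cases h1 : N.factorization π = 1
  · have hgood := main_good D h1
    unfold Good at hgood
    -- `rad ^ 8 * G ≤ π ^ 3 * N ^ 5`
    have hπR : (1 : ℝ) ≤ π := by
      exact_mod_cast (Nat.prime_of_mem_primeFactors D.mem).one_lt.le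
    have hrad : ((∏ p ∈ N.primeFactors, p : ℕ) : ℝ) = π * ∏ p ∈ N.primeFactors.erase π, (p : ℝ) := by
      push_cast
      rw [Finset.mul_prod_erase _ (fun p : ℕ => (p : ℝ)) D.mem]
    have hNN : (N : ℝ) = π * ∏ p ∈ N.primeFactors.erase π, (comp N p : ℝ) := by
      have h2 : (∏ p ∈ N.primeFactors, (comp N p : ℝ)) = N := by
        have := prod_comp D.ne_zero
        exact_mod_cast congrArg (fun m : ℕ => (m : ℝ)) this
      rw [← h2, ← Finset.mul_prod_erase _ (fun p : ℕ => (comp N p : ℝ)) D.mem]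
      congr 1
      unfold comp; rw [h1]; simp
    have hmain : (∏ p ∈ N.primeFactors.erase π, (p : ℝ)) ^ 8 * G N π ≤
        (∏ p ∈ N.primeFactors.erase π, (comp N p : ℝ)) ^ 5 := by
      unfold G
      rw [← Finset.prod_pow, ← Finset.prod_pow, ← Finset.prod_mul_distrib]
      apply Finset.prod_le_prod
      · intro p hp
        have := one_le_wt (Finset.mem_of_mem_erase hp)
        positivity
      · intro p hp
        rw [Finset.mem_erase] at hp
        have hp1 : (1 : ℝ) ≤ p := by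
          exact_mod_cast (Nat.prime_of_mem_primeFactors hp.2).one_lt.le
        by_cases h2 : N.factorization p = 2
        · rw [wt_of_two h2, comp_of_two h2]
          push_cast
          apply le_of_eq; ring
        · rw [wt_of_ne h2]
          have he := D.even p hp.2 hp.1
          have hpos := fac_pos hp.2
          have h4 : 4 ≤ N.factorization p := by
            obtain ⟨k, hk⟩ := he
            omega
          have h5 : (p : ℝ) ^ 8 ≤ (comp N p : ℝ) ^ 2 := by
            unfold comp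
            push_cast
            rw [← pow_mul]
            apply pow_le_pow_right₀ hp1
            omega
          have h6 := one_le_comp hp.2
          calc (p : ℝ) ^ 8 * (comp N p : ℝ) ^ 3 ≤ (comp N p : ℝ) ^ 2 * (comp N p : ℝ) ^ 3 := by
                gcongr
            _ = _ := by ring
    rw [hrad, hNN]
    set A := ∏ p ∈ N.primeFactors.erase π, (p : ℝ)
    set C := ∏ p ∈ N.primeFactors.erase π, (comp N p : ℝ)
    have hG1 : 1 ≤ G N π := one_le_G
    have hA : 0 < A := by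
      apply Finset.prod_pos
      intro p hp
      exact_mod_cast (Nat.prime_of_mem_primeFactors (Finset.mem_of_mem_erase hp)).pos
    have hA8 : 0 < A ^ 8 := by positivity
    have hπ5 : (0 : ℝ) < (π : ℝ) ^ 5 := by positivity
    calc ((π : ℝ) * A) ^ 8 = (π : ℝ) ^ 5 * (A ^ 8 * (π : ℝ) ^ 3) := by ring
      _ < (π : ℝ) ^ 5 * (A ^ 8 * (256 * G N π)) := by gcongr
      _ = (π : ℝ) ^ 5 * 256 * (A ^ 8 * G N π) := by ring
      _ ≤ (π : ℝ) ^ 5 * 256 * C ^ 5 := by gcongr
      _ = _ := by ring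
  · -- all exponents at least two
    have h2 : (∏ p ∈ N.primeFactors, p) ^ 2 ≤ N := by
      have : (∏ p ∈ N.primeFactors, p) ^ 2 ≤ ∏ p ∈ N.primeFactors, comp N p := by
        rw [← Finset.prod_pow]
        apply Finset.prod_le_prod' 
        intro p hp
        unfold comp
        apply Nat.pow_le_pow_right (Nat.prime_of_mem_primeFactors hp).pos
        have hpos := fac_pos hp
        by_cases hpπ : p = π
        · subst hpπ; omega
        · obtain ⟨k, hk⟩ := D.even p hp hpπ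
          omega
      rwa [prod_comp hN0] at this
    have h3 : ((∏ p ∈ N.primeFactors, p : ℕ) : ℝ) ^ 2 ≤ N := by exact_mod_cast h2
    calc ((∏ p ∈ N.primeFactors, p : ℕ) : ℝ) ^ 8 = (((∏ p ∈ N.primeFactors, p : ℕ) : ℝ) ^ 2) ^ 4 := by
          ring
      _ ≤ (N : ℝ) ^ 4 := by gcongr
      _ ≤ (N : ℝ) ^ 5 := pow_le_pow_right₀ hN1 (by norm_num)
      _ < 256 * (N : ℝ) ^ 5 := by
        have : 0 < (N : ℝ) ^ 5 := by positivity
        linarith

/-- **The radical of an odd perfect number is less than `2 N ^ (5/8)`.** -/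
theorem radical_lt {N : ℕ} (hodd : Odd N) (hp : N.Perfect) :
    ((∏ p ∈ N.primeFactors, p : ℕ) : ℝ) < 2 * (N : ℝ) ^ ((5 : ℝ) / 8) := by
  have h := radical_pow hodd hp
  have hN0 : (0 : ℝ) ≤ N := Nat.cast_nonneg N
  have h1 : (2 * (N : ℝ) ^ ((5 : ℝ) / 8)) ^ 8 = 256 * (N : ℝ) ^ 5 := by
    rw [mul_pow, ← Real.rpow_natCast ((N : ℝ) ^ ((5 : ℝ) / 8)) 8, ← Real.rpow_mul hN0]
    norm_num
  rw [← h1] at h
  exact lt_of_pow_lt_pow_left₀ 8 (by positivity) h

end Pool.OPN
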