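import Pool.Agent.Work.OPN.Basic

/-! An odd perfect number cannot have all exponents equal to two except one exponent one. -/

namespace Pool.OPN

open Finset

lemma three_le_of_three {N π : ℕ} (D : Data N π) (h3 : 3 ∈ N.primeFactors)
    (he : N.factorization 3 = 2) {a b c : ℕ}
    (ha : a ∈ N.primeFactors) (hb : b ∈ N.primeFactors) (hc : c ∈ N.primeFactors)
    (hab : a ≠ b) (hac : a ≠ c) (hbc : b ≠ c)
    (da : 3 ∣ sg N a) (db : 3 ∣ sg N b) (dc : 3 ∣ sg N c) : False := by
  have h := sum_supply D h3
  rw [he] at h
  have hsub : ({a, b, c} : Finset ℕ) ⊆ N.primeFactors := by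
    intro x hx
    simp only [Finset.mem_insert, Finset.mem_singleton] at hx
    rcases hx with rfl | rfl | rfl <;> assumption
  have h1 : ∑ p ∈ ({a, b, c} : Finset ℕ), (sg N p).factorization 3 ≤ 2 := by
    rw [← h]
    exact Finset.sum_le_sum_of_subset hsub
  rw [Finset.sum_insert (by simp [hab, hac]), Finset.sum_insert (by simp [hbc]),
    Finset.sum_singleton] at h1
  have e1 := Nat.prime_three.factorization_pos_of_dvd (sg_pos ha).ne' da
  have e2 := Nat.prime_three.factorization_pos_of_dvd (sg_pos hb).ne' db
  have e3 := Nat.prime_three.factorization_pos_of_dvd (sg_pos hc).ne' dc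
  omega

/-- prime divisors of `q ^ 2 + q + 1` are `3` or congruent to `1` modulo `3` -/
lemma mod_three_of_dvd {t q : ℕ} (ht : t.Prime) (h3 : t ≠ 3) (h : t ∣ q ^ 2 + q + 1) :
    t % 3 = 1 := by
  have : Fact t.Prime := ⟨ht⟩
  have hz : ((q : ZMod t)) ^ 2 + q + 1 = 0 := by
    have := (ZMod.natCast_eq_zero_iff (q ^ 2 + q + 1) t).2 h
    push_cast at this
    exact this
  have hq3 : (q : ZMod t) ^ 3 = 1 := by
    have : (q : ZMod t) ^ 3 - 1 = ((q : ZMod t) - 1) * ((q : ZMod t) ^ 2 + q + 1) := by ring
    rw [hz, mul_zero] at this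
    exact sub_eq_zero.1 this
  have hq1 : (q : ZMod t) ≠ 1 := by
    intro h1
    rw [h1] at hz
    have : ((3 : ℕ) : ZMod t) = 0 := by
      push_cast; rw [← hz]; norm_num
    rw [ZMod.natCast_eq_zero_iff] at this
    exact h3 ((Nat.prime_dvd_prime_iff_eq ht Nat.prime_three).1 this)
  have hord : orderOf (q : ZMod t) = 3 := orderOf_eq_prime hq3 hq1
  have hq0 : (q : ZMod t) ≠ 0 := by
    intro h0; rw [h0] at hz; norm_num at hz
  have hd : orderOf (q : ZMod t) ∣ t - 1 := by
    apply orderOf_dvd_of_pow_eq_one
    exact ZMod.pow_card_sub_one_eq_one hq0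
  rw [hord] at hd
  have := ht.two_le
  omega

lemma steuerwald {N π : ℕ} (D : Data N π) (h1 : N.factorization π = 1)
    (h2 : ∀ p ∈ N.primeFactors, p ≠ π → N.factorization p = 2)
    (hcard : 2 < N.primeFactors.card) : False := by
  have hodd : ∀ p ∈ N.primeFactors, p ≠ 2 := by
    intro p hp h
    have := odd_of_mem D.odd hp
    rw [h] at this
    exact absurd this (by decide)
  have hπp := Nat.prime_of_mem_primeFactors D.mem
  -- `π` is not `3` since `4 ∤ π + 1`
  have hπ3 : π ≠ 3 := by
    intro h
    have h4 : sg N π ∣ 2 * N := by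
      rw [← D.prod]; exact Finset.dvd_prod_of_mem _ D.mem
    rw [sg_of_one h1, h] at h4
    obtain ⟨k, hk⟩ := D.odd
    omega
  by_cases h3 : 3 ∈ N.primeFactors
  · have e3 := h2 3 h3 (Ne.symm hπ3)
    have key : ∀ {a b c : ℕ}, a ∈ N.primeFactors → b ∈ N.primeFactors → c ∈ N.primeFactors →
        a ≠ b → a ≠ c → b ≠ c → a ≠ π → b ≠ π → c ≠ π → a % 3 = 1 → b % 3 = 1 → c % 3 = 1 →
        False := by
      intro a b c ha hb hc hab hac hbc haπ hbπ hcπ ma mb mc
      have dv : ∀ x ∈ N.primeFactors, x ≠ π → x % 3 = 1 → 3 ∣ sg N x := by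
        intro x hx hxπ hm
        rw [sg_of_two (h2 x hx hxπ)]
        apply Nat.dvd_of_mod_eq_zero
        have : x ^ 2 % 3 = 1 := by
          rw [Nat.pow_mod, hm]
        omega
      exact three_le_of_three D h3 e3 ha hb hc hab hac hbc (dv a ha haπ ma) (dv b hb hbπ mb)
        (dv c hc hcπ mc)
    have m13 : 13 ∈ N.primeFactors := by
      apply mem_of_dvd D h3 (by norm_num) (by norm_num)
      rw [sg_of_two e3]; norm_num
    by_cases c13 : 13 = π
    · have m7 : 7 ∈ N.primeFactors := by
        apply mem_of_dvd D D.mem (by norm_num) (by norm_num)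
        rw [sg_of_one h1, ← c13]; norm_num
      have m19 : 19 ∈ N.primeFactors := by
        apply mem_of_dvd D m7 (by norm_num) (by norm_num)
        rw [sg_of_two (h2 7 m7 (by omega))]; norm_num
      have m127 : 127 ∈ N.primeFactors := by
        apply mem_of_dvd D m19 (by norm_num) (by norm_num)
        rw [sg_of_two (h2 19 m19 (by omega))]; norm_num
      exact key m7 m19 m127 (by norm_num) (by norm_num) (by norm_num) (by omega) (by omega)
        (by omega) (by norm_num) (by norm_num) (by norm_num)
    · have m61 : 61 ∈ N.primeFactors := by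
        apply mem_of_dvd D m13 (by norm_num) (by norm_num)
        rw [sg_of_two (h2 13 m13 c13)]; norm_num
      by_cases c61 : 61 = π
      · have m31 : 31 ∈ N.primeFactors := by
          apply mem_of_dvd D D.mem (by norm_num) (by norm_num)
          rw [sg_of_one h1, ← c61]; norm_num
        have m331 : 331 ∈ N.primeFactors := by
          apply mem_of_dvd D m31 (by norm_num) (by norm_num)
          rw [sg_of_two (h2 31 m31 (by omega))]; norm_num
        exact key m13 m31 m331 (by norm_num) (by norm_num) (by norm_num) (by omega) (by omega)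
          (by omega) (by norm_num) (by norm_num) (by norm_num)
      · have m97 : 97 ∈ N.primeFactors := by
          apply mem_of_dvd D m61 (by norm_num) (by norm_num)
          rw [sg_of_two (h2 61 m61 c61)]; norm_num
        by_cases c97 : 97 = π
        · have m7 : 7 ∈ N.primeFactors := by
            apply mem_of_dvd D D.mem (by norm_num) (by norm_num)
            rw [sg_of_one h1, ← c97]; norm_num
          exact key m13 m61 m7 (by norm_num) (by norm_num) (by norm_num) (by omega) (by omega)
            (by omega) (by norm_num) (by norm_num) (by norm_num)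
        · exact key m13 m61 m97 (by norm_num) (by norm_num) (by norm_num) c13 c61 c97
            (by norm_num) (by norm_num) (by norm_num)
  · -- `3 ∤ N`
    have hmod : ∀ p ∈ N.primeFactors, p ≠ π → p % 3 ≠ 1 := by
      intro p hp hpπ hm
      apply h3
      apply mem_of_dvd D hp Nat.prime_three (by norm_num)
      rw [sg_of_two (h2 p hp hpπ)]
      apply Nat.dvd_of_mod_eq_zero
      have : p ^ 2 % 3 = 1 := by
        rw [Nat.pow_mod, hm]
      omega
    have hdv : ∀ p ∈ N.primeFactors, p ≠ π → π ∣ sg N p := by
      intro p hp hpπ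
      have hs := sg_of_two (h2 p hp hpπ)
      have hne1 : sg N p ≠ 1 := by
        rw [hs]
        have := (Nat.prime_of_mem_primeFactors hp).two_le
        nlinarith
      set t := (sg N p).minFac with ht
      have htp : t.Prime := Nat.minFac_prime hne1
      have htd : t ∣ sg N p := Nat.minFac_dvd _
      have ht2 : t ≠ 2 := by
        intro h
        rw [h, hs] at htd
        have hp2 := odd_of_mem D.odd hp
        obtain ⟨k, hk⟩ := hp2
        have : (p ^ 2 + p + 1) % 2 = 1 := by
          rw [hk]; ring_nf; omega
        omega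
      have htm := mem_of_dvd D hp htp ht2 htd
      have ht3 : t ≠ 3 := by rintro h; rw [h] at htm; exact h3 htm
      have := mod_three_of_dvd htp ht3 (by rw [← hs]; exact htd)
      by_cases h : t = π
      · rw [← h]; exact htd
      · exact absurd this (hmod t htm h)
    -- two different primes give a contradiction
    have hc : 1 < (N.primeFactors.erase π).card := by
      rw [Finset.card_erase_of_mem D.mem]; omega
    obtain ⟨a, ha, b, hb, hab⟩ := Finset.one_lt_card.1 hc
    rw [Finset.mem_erase] at ha hb
    have h := sum_supply D D.mem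
    rw [h1] at h
    have hsub : ({a, b} : Finset ℕ) ⊆ N.primeFactors := by
      intro x hx
      simp only [Finset.mem_insert, Finset.mem_singleton] at hx
      rcases hx with rfl | rfl
      · exact ha.2
      · exact hb.2
    have h5 : ∑ p ∈ ({a, b} : Finset ℕ), (sg N p).factorization π ≤ 1 := by
      rw [← h]
      exact Finset.sum_le_sum_of_subset hsub
    rw [Finset.sum_insert (by simp [hab]), Finset.sum_singleton] at h5
    have e1 := hπp.factorization_pos_of_dvd (sg_pos ha.2).ne' (hdv a ha.2 ha.1)
    have e2 := hπp.factorization_pos_of_dvd (sg_pos hb.2).ne' (hdv b hb.2 hb.1)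
    omega

end Pool.OPN
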